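import Mathlib
import Pool.Agent.Q277.GcdBinom

/-!
# The gcd of `C(2k,k), C(3k,k), ..., C((k+1)k,k)`

With `G k` this gcd and `P N` the largest prime power factor `max_q q^{v_q(N)}` of `N`, we prove

* for every prime `q` and `k ≥ 2`: `q ∣ G k` iff `q ∣ k + 1` and
  `(k + 1) / q^{v_q(k+1)} ≤ q^{v_q(k+1)}`;
* for every `k ≥ 2`: `G k = 1` iff `(k + 1) / P (k + 1) > P (k + 1)`.

The version of the question with `k / P k > P k` in place of this is false (`k = 30`).
-/

open Finset

namespace Pool.Agent.Results.MP_cb2649_nt.GcdCriterion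

/-- The greatest common divisor of the binomial coefficients `C(jk, k)`, `2 ≤ j ≤ k + 1`. -/
def G (k : ℕ) : ℕ := (Icc 2 (k + 1)).gcd (fun j => (j * k).choose k)

/-- The largest of the prime powers `q ^ v_q(N)`, `q` a prime factor of `N`. -/
def P (N : ℕ) : ℕ := N.primeFactors.sup (fun q => q ^ N.factorization q)

theorem prime_dvd_G (q k : ℕ) (hq : q.Prime) (hk : 2 ≤ k) :
    q ∣ G k ↔ q ∣ k + 1 ∧
      (k + 1) / q ^ (k + 1).factorization q ≤ q ^ (k + 1).factorization q := by
  have hG : q ∣ G k ↔ ∀ j ∈ Icc 2 (k + 1), q ∣ (j * k).choose k := Finset.dvd_gcd_iff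
  rw [hG]
  have hfac : k + 1 = (k + 1) / q ^ (k + 1).factorization q * q ^ (k + 1).factorization q := by
    rw [mul_comm]; exact (Nat.ordProj_mul_ordCompl_eq_self (k + 1) q).symm
  have hnd : ¬ q ∣ (k + 1) / q ^ (k + 1).factorization q :=
    Nat.not_dvd_ordCompl hq (by omega)
  constructor
  · intro h
    have h1 : q ∣ k + 1 := Q277.GcdBinom.dvd_succ k (by omega) q h
    refine ⟨h1, ?_⟩
    exact (Q277.GcdBinom.criterion q hq _ _ k (hq.factorization_pos_of_dvd (by omega) h1)
      hnd hfac).1 h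
  · rintro ⟨h1, h2⟩
    exact (Q277.GcdBinom.criterion q hq _ _ k (hq.factorization_pos_of_dvd (by omega) h1)
      hnd hfac).2 h2

theorem le_P (N q : ℕ) (hq : q.Prime) (hN : N ≠ 0) (hd : q ∣ N) :
    q ^ N.factorization q ≤ P N :=
  Finset.le_sup (f := fun q => q ^ N.factorization q)
    (Nat.mem_primeFactors.2 ⟨hq, hd, hN⟩)

theorem exists_P (N : ℕ) (hN : 2 ≤ N) :
    ∃ q, q.Prime ∧ q ∣ N ∧ P N = q ^ N.factorization q := by
  have hne : N.primeFactors.Nonempty := Nat.nonempty_primeFactors.2 (by omega)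
  obtain ⟨q, hq1, hq2⟩ := Finset.exists_mem_eq_sup N.primeFactors hne
    (fun q => q ^ N.factorization q)
  have := Nat.mem_primeFactors.1 hq1
  exact ⟨q, this.1, this.2.1, hq2⟩

theorem main (k : ℕ) (hk : 2 ≤ k) : G k = 1 ↔ (k + 1) / P (k + 1) > P (k + 1) := by
  constructor
  · intro h
    obtain ⟨q, hq, hqd, hP⟩ := exists_P (k + 1) (by omega)
    rw [hP]
    by_contra hlt
    push Not at hlt
    have : q ∣ G k := (prime_dvd_G q k hq hk).2 ⟨hqd, hlt⟩
    rw [h] at this
    exact hq.one_lt.ne' (Nat.dvd_one.1 this)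
  · intro h
    by_contra hne
    obtain ⟨q, hq, hqd⟩ := Nat.exists_prime_and_dvd hne
    obtain ⟨h1, h2⟩ := (prime_dvd_G q k hq hk).1 hqd
    have h3 := le_P (k + 1) q hq (by omega) h1
    have h4 : (k + 1) / P (k + 1) ≤ (k + 1) / q ^ (k + 1).factorization q :=
      Nat.div_le_div_left h3 (pow_pos hq.pos _)
    omega

theorem P_thirty : 30 / P 30 > P 30 := by
  obtain ⟨q, hq, hqd, hP⟩ := exists_P 30 (by norm_num)
  have hq30 : q ≤ 30 := Nat.le_of_dvd (by norm_num) hqd
  have hsq : Squarefree (30 : ℕ) := by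
    rw [Nat.squarefree_iff_prime_squarefree]
    intro p hp hpd
    have h1 : p * p ≤ 30 := Nat.le_of_dvd (by norm_num) hpd
    have h2 : p ≤ 5 := by nlinarith
    interval_cases p <;> revert hp hpd <;> norm_num
  have h1 : (30 : ℕ).factorization q ≤ 1 := hsq.natFactorization_le_one q
  have h2 : q ≤ 5 := by
    by_contra hlt
    push Not at hlt
    interval_cases q <;> revert hq hqd <;> norm_num
  have h3 : P 30 ≤ 5 := by
    rw [hP]
    calc q ^ (30 : ℕ).factorization q ≤ q ^ 1 := Nat.pow_le_pow_right hq.pos h1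
      _ ≤ 5 := by rw [pow_one]; exact h2
  have h4 : 0 < P 30 := by rw [hP]; exact pow_pos hq.pos _
  generalize P 30 = x at h3 h4
  interval_cases x <;> norm_num

/-- For all `k ≥ 2`: a prime `q` divides `G k` iff `q ∣ k + 1` and the cofactor of the full power
of `q` in `k + 1` is at most that power; `G k = 1` iff `(k + 1) / P (k + 1) > P (k + 1)`; and the
version with `k` in place of `k + 1` on the right-hand side fails. -/
theorem result :
    (∀ k : ℕ, 2 ≤ k →
      (∀ q : ℕ, q.Prime → (q ∣ G k ↔ q ∣ k + 1 ∧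
        (k + 1) / q ^ (k + 1).factorization q ≤ q ^ (k + 1).factorization q)) ∧
      (G k = 1 ↔ (k + 1) / P (k + 1) > P (k + 1))) ∧
    ¬ (∀ k : ℕ, 2 ≤ k → (G k = 1 ↔ k / P k > P k)) := by
  refine ⟨fun k hk => ⟨fun q hq => prime_dvd_G q k hq hk, main k hk⟩, ?_⟩
  intro h
  have h1 := (h 30 (by norm_num)).2 P_thirty
  have h2 : (31 : ℕ) ∣ G 30 := by
    refine (prime_dvd_G 31 30 (by norm_num) (by norm_num)).2 ⟨by norm_num, ?_⟩
    have : (30 + 1 : ℕ).factorization 31 = 1 := Nat.Prime.factorization_self (by norm_num)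
    rw [this]; norm_num
  rw [h1] at h2
  omega

end Pool.Agent.Results.MP_cb2649_nt.GcdCriterion
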